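import Pool.Agent.BURN.Asm
import Pool.Agent.BURN.App5bd

/-!
The answer to Q1 of MP_5bd9ee_al is negative: there is a group in which every centralizer of an
element is finite or the whole group, with a subgroup which is not normal and has infinite index
in its normalizer.
-/

set_option autoImplicit false

namespace Pool.Agent.Results.MP_5bd9ee_al.BurnsideNotFNI

open Pool.Agent.BURN

/-- There is a group `G` in which every centralizer of an element is finite or all of `G`, and a
subgroup `H` of `G` which is not normal in `G` and has infinite index in its normalizer. -/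
theorem result : ∃ (G : Type) (_ : Group G),
    (∀ g : G, ((Subgroup.centralizer ({g} : Set G) : Subgroup G) : Set G).Finite ∨
      Subgroup.centralizer ({g} : Set G) = ⊤) ∧
    ∃ H : Subgroup G, ¬ H.Normal ∧
      ¬ (H.subgroupOf (Subgroup.normalizer (H : Set G))).FiniteIndex := by
  obtain ⟨G, hG, h1, h2⟩ := App5bd.main Asm.p_BurnF
  refine ⟨G, hG, h1, ?_⟩
  unfold App5bd.FNI at h2
  push Not at h2
  obtain ⟨H, hH1, hH2⟩ := h2
  exact ⟨H, hH2, hH1⟩

end Pool.Agent.Results.MP_5bd9ee_al.BurnsideNotFNI
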